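import Mathlib
import Pool.Agent.Q157.Quiddity

/-!
For every `N ≥ 2` the equation `(E_N)` has only finitely many irreducible solutions; their
sizes are at most `N ^ 2`.
-/

namespace Pool.Agent.Results.MP_762e7e_co.FinitelyMany

open Matrix Q157.Quiddity

variable {N : ℕ}

theorem M_cons (a : ZMod N) (l : List (ZMod N)) : M (a :: l) = M l * A a := rfl

theorem M_append (l₁ l₂ : List (ZMod N)) : M (l₁ ++ l₂) = M l₂ * M l₁ := by
  induction l₁ with
  | nil => simp [M]
  | cons a l ih => rw [List.cons_append, M_cons, ih, M_cons, Matrix.mul_assoc]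

theorem M_singleton (a : ZMod N) : M [a] = A a := by
  rw [M_cons]; simp [M]

theorem det_M (l : List (ZMod N)) : (M l).det = 1 := by
  induction l with
  | nil => simp [M]
  | cons a l ih =>
    rw [M_cons, det_mul, ih, A, det_fin_two_of]
    ring

theorem sq_eq_one {ε : ZMod N} (h : ε = 1 ∨ ε = -1) : ε * ε = 1 := by
  rcases h with rfl | rfl <;> ring

theorem A_sub_left (x b : ZMod N) : A (x - b) = !![1, -b; 0, 1] * A x := by
  rw [A, A, mul_fin_two]
  ext i j
  fin_cases i <;> fin_cases j <;> simp <;> ring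

theorem A_sub_right (x b : ZMod N) : A (x - b) = A x * !![1, 0; b, 1] := by
  rw [A, A, mul_fin_two]
  ext i j
  fin_cases i <;> fin_cases j <;> simp <;> ring

/-- A solution with a cyclic subword of suitable length and continuant `± 1` is reducible. -/
theorem reducible_of_subword (u w v : List (ZMod N)) (hsol : IsSolution (u ++ w ++ v))
    (hw : 1 ≤ w.length) (hl : 3 ≤ u.length + v.length)
    (hK : M w 0 0 = 1 ∨ M w 0 0 = -1) : IsReducible (u ++ w ++ v) := by
  obtain ⟨ε, hεdef⟩ : ∃ ε, ε = M w 0 0 := ⟨_, rfl⟩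
  obtain ⟨β, hβ⟩ : ∃ β, β = M w 0 1 := ⟨_, rfl⟩
  obtain ⟨γ, hγ⟩ : ∃ γ, γ = M w 1 0 := ⟨_, rfl⟩
  obtain ⟨δ, hδ⟩ : ∃ δ, δ = M w 1 1 := ⟨_, rfl⟩
  rw [← hεdef] at hK
  have hε := sq_eq_one hK
  have hdet : ε * δ - β * γ = 1 := by
    have := det_M w
    rwa [det_fin_two, ← hεdef, ← hβ, ← hγ, ← hδ] at this
  have hMw : M w = !![ε, β; γ, δ] := by
    rw [hεdef, hβ, hγ, hδ]; exact eta_fin_two (M w)
  -- the complementary word
  obtain ⟨x₁, x', xₗ, hx⟩ : ∃ x₁ x' xₗ, v ++ u = x₁ :: (x' ++ [xₗ]) := by
    have hlen : 3 ≤ (v ++ u).length := by rw [List.length_append]; omega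
    generalize v ++ u = x at hlen
    cases x with
    | nil => simp at hlen
    | cons x₁ t =>
      rcases List.eq_nil_or_concat t with h | ⟨x', xₗ, h⟩
      · subst h; simp at hlen
      · exact ⟨x₁, x', xₗ, by rw [h, List.concat_eq_append]⟩
  have hlenx : 1 ≤ x'.length := by
    have h1 : (v ++ u).length = x'.length + 2 := by rw [hx]; simp
    rw [List.length_append] at h1
    omega
  -- the product over the complementary word
  have hprod : M w * M (v ++ u) = 1 ∨ M w * M (v ++ u) = -1 := by
    rcases hsol.2 with h | h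
    · left
      rw [M_append, M_append] at h
      rw [M_append, ← Matrix.mul_assoc]
      exact mul_eq_one_comm.1 h
    · right
      rw [M_append, M_append] at h
      rw [M_append, ← Matrix.mul_assoc]
      have h' : -M v * (M w * M u) = 1 := by rw [neg_mul, h, neg_neg]
      have h'' := mul_eq_one_comm.1 h'
      rw [mul_neg] at h''
      rw [← h'', neg_neg]
  have hadj : !![δ, -β; -γ, ε] * M w = 1 := by
    rw [hMw, mul_fin_two, one_fin_two]
    ext i j
    fin_cases i <;> fin_cases j <;> simp
    · linear_combination hdet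
    · ring
    · ring
    · linear_combination hdet
  have hMx : M (v ++ u) = !![δ, -β; -γ, ε] ∨ M (v ++ u) = -!![δ, -β; -γ, ε] := by
    have h1 : M (v ++ u) = !![δ, -β; -γ, ε] * (M w * M (v ++ u)) := by
      rw [← Matrix.mul_assoc, hadj, Matrix.one_mul]
    rcases hprod with h | h
    · left; rw [h1, h, Matrix.mul_one]
    · right; rw [h1, h, Matrix.mul_neg, Matrix.mul_one]
  have hMb : M ((-(ε * β)) :: (w ++ [ε * γ])) = !![-ε, 0; 0, -ε] := by
    rw [M_cons, M_append, hMw, M_singleton, A, A, mul_fin_two, mul_fin_two]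
    ext i j
    fin_cases i <;> fin_cases j <;> simp
    · linear_combination (-ε) * hdet + (δ - ε * β * γ) * hε
    · linear_combination (-γ) * hε
    · linear_combination (-β) * hε
  have hMa' : M ((x₁ - ε * γ) :: (x' ++ [xₗ - (-(ε * β))])) =
      !![1, ε * β; 0, 1] * M (v ++ u) * !![1, 0; ε * γ, 1] := by
    rw [hx, M_cons, M_append, M_singleton, M_cons, M_append, M_singleton, A_sub_left xₗ,
      A_sub_right x₁, neg_neg]
    simp only [Matrix.mul_assoc]
  have hcalc : !![1, ε * β; 0, 1] * !![δ, -β; -γ, ε] * !![1, 0; ε * γ, 1] =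
      !![ε, 0; 0, ε] := by
    rw [mul_fin_two, mul_fin_two]
    ext i j
    fin_cases i <;> fin_cases j <;> simp
    · linear_combination ε * hdet + (ε * β * γ - δ) * hε
    · linear_combination β * hε
    · linear_combination γ * hε
  have hdiag : ∀ η : ZMod N, (η = 1 ∨ η = -1) →
      (!![η, 0; 0, η] : Matrix (Fin 2) (Fin 2) (ZMod N)) = 1 ∨
      (!![η, 0; 0, η] : Matrix (Fin 2) (Fin 2) (ZMod N)) = -1 := by
    rintro η (rfl | rfl)
    · left; exact one_fin_two.symm
    · right
      rw [one_fin_two]
      ext i j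
      fin_cases i <;> fin_cases j <;> simp
  have hMa : M ((x₁ - ε * γ) :: (x' ++ [xₗ - (-(ε * β))])) = 1 ∨
      M ((x₁ - ε * γ) :: (x' ++ [xₗ - (-(ε * β))])) = -1 := by
    rw [hMa']
    rcases hMx with h | h
    · rw [h, hcalc]
      exact hdiag ε hK
    · rw [h, Matrix.mul_neg, Matrix.neg_mul, hcalc]
      rcases hdiag ε hK with h | h
      · right; rw [h]
      · left; rw [h, neg_neg]
  refine ⟨(x₁ - ε * γ) :: (x' ++ [xₗ - (-(ε * β))]), (-(ε * β)) :: (w ++ [ε * γ]),
    v ++ u ++ w, ⟨by simp, hMa⟩, by simp; omega, ⟨by simp, ?_⟩, by simp; omega, ?_, ?_⟩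
  · rw [hMb]
    exact hdiag (-ε) (by rcases hK with h | h <;> rw [h] <;> simp)
  · refine ⟨x₁ - ε * γ, xₗ - (-(ε * β)), -(ε * β), ε * γ, x', w, rfl, rfl, ?_⟩
    rw [hx]
    simp
  · left
    have h1 : (u ++ w) ++ v ~r v ++ (u ++ w) := List.isRotated_append
    rwa [← List.append_assoc v u w] at h1

/-- A solution of size larger than `N ^ 2` is reducible. -/
theorem reducible_of_long (hN : 2 ≤ N) (c : List (ZMod N)) (hsol : IsSolution c)
    (hlen : N ^ 2 < c.length) : IsReducible c := by
  have hn5 : 5 ≤ c.length := by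
    have : 2 ^ 2 ≤ N ^ 2 := Nat.pow_le_pow_left hN 2
    omega
  have : NeZero N := ⟨by omega⟩
  -- two of the first `c.length` prefix products have the same first row
  obtain ⟨i, j, hij, hrow⟩ : ∃ i j : Fin c.length, i ≠ j ∧
      (fun k => M (c.take i) 0 k) = fun k => M (c.take j) 0 k := by
    have := Fintype.exists_ne_map_eq_of_card_lt
      (fun (i : Fin c.length) (k : Fin 2) => M (c.take i) 0 k) (by
        rw [Fintype.card_fun, ZMod.card, Fintype.card_fin, Fintype.card_fin]
        exact hlen)
    exact this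
  wlog hlt : i < j generalizing i j
  · exact this j i hij.symm hrow.symm (lt_of_le_of_ne (not_lt.1 hlt) hij.symm)
  have hlt' : (i : ℕ) < j := hlt
  have hj : (j : ℕ) < c.length := j.2
  obtain ⟨w, hw⟩ : ∃ w, w = (c.take j).drop i := ⟨_, rfl⟩
  have hwlen : w.length = j - i := by
    rw [hw, List.length_drop, List.length_take]
    omega
  have htake : c.take j = c.take i ++ w := by
    have h1 := (List.take_append_drop i (c.take j)).symm
    rw [List.take_take, min_eq_left hlt'.le, ← hw] at h1
    exact h1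
  have hc : c = c.take i ++ w ++ c.drop j := by
    rw [← htake, List.take_append_drop]
  have hfirst : ∀ k, M w 0 k = (1 : Matrix (Fin 2) (Fin 2) (ZMod N)) 0 k := by
    have hP : M (c.take i) * (M (c.take i)).adjugate = 1 := by
      rw [mul_adjugate, det_M, one_smul]
    have hrow' : ∀ k, (M w * M (c.take i)) 0 k = M (c.take i) 0 k := by
      intro k
      rw [← M_append, ← htake]
      exact (congrFun hrow k).symm
    intro k
    have h1 : (M w * M (c.take i) * (M (c.take i)).adjugate) 0 k =
        (M (c.take i) * (M (c.take i)).adjugate) 0 k := by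
      rw [mul_apply, mul_apply]
      exact Finset.sum_congr rfl fun l _ => by rw [hrow' l]
    rw [Matrix.mul_assoc, hP, Matrix.mul_one] at h1
    exact h1
  by_cases hshort : w.length + 3 ≤ c.length
  · rw [hc]
    refine reducible_of_subword _ _ _ (hc ▸ hsol) (by omega) ?_ (Or.inl (by rw [hfirst]; simp))
    rw [List.length_take, List.length_drop]
    omega
  · -- remove the first two letters
    obtain ⟨w₁, w₂, w', hw'⟩ : ∃ w₁ w₂ w', w = w₁ :: w₂ :: w' := by
      rcases w with _ | ⟨w₁, _ | ⟨w₂, w'⟩⟩
      · simp at hshort; omega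
      · simp at hshort; omega
      · exact ⟨w₁, w₂, w', rfl⟩
    have hw'len : w'.length + 2 = w.length := by rw [hw']; simp
    have hK : M w' 0 0 = -1 := by
      have h0 := hfirst 0
      have h1 := hfirst 1
      rw [hw', M_cons, M_cons, eta_fin_two (M w'), A, A, mul_fin_two, mul_fin_two] at h0 h1
      simp at h0 h1
      linear_combination (-1 : ZMod N) * h0 - w₁ * h1
    have hc' : c = (c.take i ++ [w₁, w₂]) ++ w' ++ c.drop j := by
      conv_lhs => rw [hc, hw']
      simp
    have hsol' : IsSolution ((c.take i ++ [w₁, w₂]) ++ w' ++ c.drop j) := hc' ▸ hsol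
    have hred := reducible_of_subword _ _ _ hsol' (by omega) (by
      rw [List.length_append, List.length_take, List.length_drop]
      simp
      omega) (Or.inr hK)
    exact hc'.symm ▸ hred

/-- For every `N ≥ 2` the equation `(E_N)` has only finitely many irreducible solutions; more
precisely, all of them have size at most `N ^ 2`. -/
theorem result : ∀ N : ℕ, 2 ≤ N →
    {c : List (ZMod N) | IsIrreducibleSolution c}.Finite ∧
    ∀ c : List (ZMod N), IsIrreducibleSolution c → c.length ≤ N ^ 2 := by
  intro N hN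
  have : NeZero N := ⟨by omega⟩
  have hbound : ∀ c : List (ZMod N), IsIrreducibleSolution c → c.length ≤ N ^ 2 := by
    intro c hc
    by_contra hlen
    push Not at hlen
    exact hc.2.2 (reducible_of_long hN c hc.1 hlen)
  exact ⟨(List.finite_length_le (ZMod N) (N ^ 2)).subset hbound, hbound⟩

end Pool.Agent.Results.MP_762e7e_co.FinitelyMany
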